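import Mathlib
import Pool.Agent.Q152.CC.Stm

/-!
# Project CC (helper152), lemma `S_CND` (by helper181): conductors of cubic characters
-/

set_option autoImplicit false

namespace Pool.Agent.Q181.CC

/-- a primitive character is not trivial on the kernel of reduction modulo a proper divisor -/
theorem prim_kernel (m d : ℕ) (hm : 1 ≤ m) (hd : d ∣ m) (hlt : d < m) (χ : DirichletCharacter ℂ m)
    (hp : χ.IsPrimitive) (h : ∀ x : (ZMod m)ˣ, ∀ t : ℕ, (x : ZMod m) = 1 + (d : ZMod m) * (t : ZMod m) →
      χ (x : ZMod m) = 1) : False := by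
  have : NeZero m := ⟨by omega⟩
  have hf : DirichletCharacter.FactorsThrough χ d := by
    rw [DirichletCharacter.factorsThrough_iff_ker_unitsMap hd]
    intro x hx
    rw [MonoidHom.mem_ker] at hx ⊢
    have h1 : ZMod.castHom hd (ZMod d) (x : ZMod m) = 1 := by
      have := congrArg (Units.val) hx
      rw [ZMod.unitsMap_def] at this
      simpa using this
    -- write x - 1 as a multiple of d
    have h2 : ZMod.castHom hd (ZMod d) ((x : ZMod m) - 1) = 0 := by rw [map_sub, h1, map_one, sub_self]
    have h3 : (((((x : ZMod m) - 1).val : ℕ) : ZMod m)) = (x : ZMod m) - 1 := ZMod.natCast_zmod_val _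
    have h4 : ((((x : ZMod m) - 1).val : ℕ) : ZMod d) = 0 := by
      rw [← h3, map_natCast] at h2
      exact h2
    rw [ZMod.natCast_eq_zero_iff] at h4
    obtain ⟨t, ht⟩ := h4
    have h5 : (x : ZMod m) = 1 + (d : ZMod m) * (t : ZMod m) := by
      rw [ht] at h3
      push_cast at h3
      rw [h3]; ring
    have h6 := h x t h5
    ext
    rw [MulChar.coe_toUnitHom, h6]
    rfl
  have h7 : χ.conductor ≤ d := Nat.sInf_le hf
  rw [DirichletCharacter.isPrimitive_def] at hp
  omega

theorem pow_of_sq_zero {R : Type*} [CommRing R] (y : R) (hy : y * y = 0) (n : ℕ) : (1 + y) ^ n = 1 + n * y := by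
  induction n with
  | zero => simp
  | succ n ih =>
    rw [pow_succ, ih]
    push_cast
    linear_combination (n : R) * hy

theorem one_of_pows (z : ℂ) (p : ℕ) (h3 : z ^ 3 = 1) (hp : z ^ p = 1) (hc : Nat.Coprime p 3) : z = 1 := by
  have h1 : orderOf z ∣ 3 := orderOf_dvd_of_pow_eq_one h3
  have h2 : orderOf z ∣ p := orderOf_dvd_of_pow_eq_one hp
  have h4 : orderOf z ∣ 1 := by
    have := Nat.dvd_gcd h2 h1
    rwa [hc] at this
  rw [Nat.dvd_one] at h4
  exact orderOf_eq_one_iff.mp h4

open Pool.Agent.Q152.CC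

theorem cnd : S_CND := by
  intro m hm χ h3 hprim
  have : NeZero m := ⟨by omega⟩
  have hcube : ∀ x : (ZMod m)ˣ, χ (x : ZMod m) ^ 3 = 1 := by
    intro x
    have h := congrArg (fun f : DirichletCharacter ℂ m => f (x : ZMod m)) h3
    simp only [MulChar.one_apply_coe] at h
    rw [← h, MulChar.pow_apply_coe]
  refine ⟨?_, ?_⟩
  · intro p hp hp3 hdvd
    obtain ⟨e, he⟩ := hdvd
    have hp0 : 0 < p := hp.pos
    have he0 : 0 < e := by
      rcases Nat.eq_zero_or_pos e with h | h
      · rw [h] at he; omega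
      · exact h
    have hmd : m = p * (p * e) := by rw [he]; ring
    refine prim_kernel m (p * e) hm ⟨p, by rw [hmd]; ring⟩ ?_ χ hprim ?_
    · have := hp.two_le
      have : 0 < p * e := by positivity
      nlinarith
    · intro x t hx
      have hz : ((p : ZMod m)) * ((p * e : ℕ) : ZMod m) = 0 := by
        have e1 : ((p * (p * e) : ℕ) : ZMod m) = 0 := by
          have e2 : ((m : ℕ) : ZMod m) = ((p * (p * e) : ℕ) : ZMod m) := congrArg (fun n : ℕ => (n : ZMod m)) hmd
          exact e2.symm.trans (ZMod.natCast_self m)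
        rw [← e1]
        push_cast
        ring
      have hy : (((p * e : ℕ) : ZMod m) * t) * (((p * e : ℕ) : ZMod m) * t) = 0 := by
        have : (((p * e : ℕ) : ZMod m) * t) * (((p * e : ℕ) : ZMod m) * t) =
          ((p : ZMod m) * ((p * e : ℕ) : ZMod m)) * (e * t * t) := by push_cast; ring
        rw [this, hz, zero_mul]
      have hxp : (x : ZMod m) ^ p = 1 := by
        rw [hx, pow_of_sq_zero _ hy]
        have : (p : ZMod m) * (((p * e : ℕ) : ZMod m) * t) = ((p : ZMod m) * ((p * e : ℕ) : ZMod m)) * t := by ring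
        rw [this, hz, zero_mul, add_zero]
      have hp1 : χ (x : ZMod m) ^ p = 1 := by rw [← map_pow, hxp, map_one]
      refine one_of_pows _ p (hcube x) hp1 ?_
      rw [Nat.coprime_primes hp Nat.prime_three]
      exact hp3
  · intro h3m
    have h9 : 9 ∣ m := by
      by_contra h9
      obtain ⟨d, hd⟩ := h3m
      have hd3 : Nat.Coprime 3 d := by
        rw [Nat.Prime.coprime_iff_not_dvd Nat.prime_three]
        rintro ⟨c, hc⟩
        exact h9 ⟨c, by rw [hd, hc]; ring⟩
      have hd0 : 0 < d := by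
        rcases Nat.eq_zero_or_pos d with h | h
        · rw [h] at hd; omega
        · exact h
      refine prim_kernel m d hm ⟨3, by rw [hd]; ring⟩ (by omega) χ hprim ?_
      intro x t hx
      have hx2 : (x : ZMod m) ^ 2 = 1 := by
        -- work with the integer v = 1 + d t
        have hv : (x : ZMod m) = ((1 + d * t : ℕ) : ZMod m) := by rw [hx]; push_cast; ring
        have hcop : Nat.Coprime (1 + d * t) m := by
          rw [← ZMod.isUnit_iff_coprime, ← hv]
          exact x.isUnit
        have hc3 : Nat.Coprime (1 + d * t) 3 := Nat.Coprime.coprime_dvd_right ⟨d, hd⟩ hcop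
        have h33 : 3 ∣ (1 + d * t) ^ 2 + 2 := by
          have : ¬ 3 ∣ (1 + d * t) := by
            rw [← Nat.Prime.coprime_iff_not_dvd Nat.prime_three]; exact hc3.symm
          have h5 : (1 + d * t) % 3 = 1 ∨ (1 + d * t) % 3 = 2 := by omega
          have h6 : ((1 + d * t) ^ 2 + 2) % 3 = 0 := by
            rcases h5 with h | h <;> simp [Nat.pow_mod, Nat.add_mod, h]
          omega
        have hdd : d ∣ ((1 + d * t) ^ 2 + (d * 3 - 1)) := by
          refine ⟨2 * t + d * t ^ 2 + 3, ?_⟩
          have : 1 ≤ d * 3 := by omega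
          zify [this]
          ring
        have h3d : (3 : ℤ) ∣ ((1 + d * t : ℕ) : ℤ) ^ 2 - 1 := by
          have : (3 : ℤ) ∣ (((1 + d * t) ^ 2 + 2 : ℕ) : ℤ) := by exact_mod_cast h33
          push_cast at this ⊢
          omega
        have hdz : (d : ℤ) ∣ ((1 + d * t : ℕ) : ℤ) ^ 2 - 1 := by
          refine ⟨2 * t + d * t ^ 2, ?_⟩
          push_cast
          ring
        have hmz : (m : ℤ) ∣ ((1 + d * t : ℕ) : ℤ) ^ 2 - 1 := by
          rw [hd]
          push_cast
          refine IsCoprime.mul_dvd ?_ ?_ ?_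
          · exact_mod_cast (Nat.isCoprime_iff_coprime.mpr hd3)
          · exact_mod_cast h3d
          · exact_mod_cast hdz
        have h8 : ((((1 + d * t : ℕ) : ℤ) ^ 2 - 1 : ℤ) : ZMod m) = 0 := by
          rw [ZMod.intCast_zmod_eq_zero_iff_dvd]
          exact hmz
        rw [hv]
        push_cast at h8 ⊢
        linear_combination h8
      have hp1 : χ (x : ZMod m) ^ 2 = 1 := by rw [← map_pow, hx2, map_one]
      exact one_of_pows _ 2 (hcube x) hp1 (by norm_num)
    refine ⟨h9, ?_⟩
    rintro ⟨e, he⟩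
    have he0 : 0 < e := by
      rcases Nat.eq_zero_or_pos e with h | h
      · rw [h] at he; omega
      · exact h
    refine prim_kernel m (9 * e) hm ⟨3, by rw [he]; ring⟩ (by omega) χ hprim ?_
    intro x t hx
    have hz : ((27 * e : ℕ) : ZMod m) = 0 := by rw [← he]; exact ZMod.natCast_self m
    have hy3 : (1 + ((3 * e : ℕ) : ZMod m) * t) ^ 3 = (x : ZMod m) := by
      rw [hx]
      push_cast at hz ⊢
      linear_combination ((e : ZMod m) * t ^ 2 + (e : ZMod m) ^ 2 * t ^ 3) * hz
    have hyu : IsUnit (1 + ((3 * e : ℕ) : ZMod m) * t) := by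
      have : IsUnit ((1 + ((3 * e : ℕ) : ZMod m) * t) ^ 3) := by rw [hy3]; exact x.isUnit
      exact (isUnit_pow_iff (by norm_num)).mp this
    obtain ⟨u, hu⟩ := hyu
    rw [← hy3, map_pow, ← hu]
    exact hcube u

end Pool.Agent.Q181.CC
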