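import Pool.Agent.Q62.CC.Stm

/-!
Project CC (helper62), job CC-2: the eigenfunctions of a symmetric injective integral operator with continuous kernel.
-/

set_option autoImplicit false

open Set Filter Topology MeasureTheory
open scoped ENNReal ContDiff

namespace Pool.Agent.Q181.CC

open Pool.Agent.Q62.CC

section diag

variable {H : Type} [NormedAddCommGroup H] [InnerProductSpace ℝ H] [CompleteSpace H]

/-- finiteness of the set of large eigenvalues of a compact operator -/
lemma finite_large {ι : Type} {G : H →L[ℝ] H} (hG : IsCompactOperator G) {b : ι → H} (hb : Orthonormal ℝ b)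
    {μ : ι → ℝ} (hGb : ∀ i, G (b i) = μ i • b i) {c : ℝ} (hc : 0 < c) : {i | c ≤ |μ i|}.Finite := by
  by_contra hinf
  have hinf' : {i | c ≤ |μ i|}.Infinite := hinf
  set e := hinf'.natEmbedding with he
  obtain ⟨K, hK, hK'⟩ := hG.image_closedBall_subset_compact 1
  have hx : ∀ k, G (b (e k)) ∈ K := by
    intro k
    apply hK'
    refine ⟨b (e k), ?_, rfl⟩
    simp [hb.1]
  obtain ⟨a, _, φ, hφ, hlim⟩ := hK.tendsto_subseq hx
  have hcau := hlim.cauchySeq
  rw [Metric.cauchySeq_iff'] at hcau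
  obtain ⟨N, hN⟩ := hcau c hc
  have h1 := hN (N + 1) (by omega)
  rw [dist_eq_norm] at h1
  simp only [Function.comp] at h1
  set i : ι := (e (φ (N + 1)) : ι) with hi
  set j : ι := (e (φ N) : ι) with hj
  have hij : i ≠ j := by
    intro h
    have h2 : e (φ (N + 1)) = e (φ N) := Subtype.ext h
    have h3 := e.injective h2
    have h4 : φ N < φ (N + 1) := hφ (Nat.lt_succ_self N)
    omega
  rw [hGb, hGb] at h1
  have h5 : inner ℝ (b i) (μ i • b i - μ j • b j) = μ i := by
    rw [inner_sub_right, inner_smul_right, inner_smul_right, real_inner_self_eq_norm_sq, hb.1,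
      hb.2 hij]
    simp
  have h6 := abs_real_inner_le_norm (b i) (μ i • b i - μ j • b j)
  rw [h5, hb.1, one_mul] at h6
  have h7 : c ≤ |μ i| := (e (φ (N + 1))).2
  linarith

/-- diagonalization of an injective compact symmetric operator -/
lemma diag {G : H →L[ℝ] H} (hGc : IsCompactOperator G) (hGs : ∀ x y, inner ℝ (G x) y = inner ℝ x (G y))
    (hinj : ∀ x, G x = 0 → x = 0) :
    ∃ (ι : Type) (_ : Countable ι) (b : HilbertBasis ι ℝ H) (μ : ι → ℝ), (∀ i, μ i ≠ 0) ∧
      ∀ i, G (b i) = μ i • b i := by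
  have hsymm : (G : H →ₗ[ℝ] H).IsSymmetric := fun x y => hGs x y
  have h0 : Module.End.eigenspace (G : H →ₗ[ℝ] H) 0 = ⊥ := by
    ext k
    rw [Module.End.mem_eigenspace_iff, zero_smul, Submodule.mem_bot]
    exact ⟨fun h => hinj k h, fun h => by rw [h, map_zero]⟩
  have hfd : ∀ μ : ℝ, FiniteDimensional ℝ (Module.End.eigenspace (G : H →ₗ[ℝ] H) μ) := by
    intro μ
    rcases eq_or_ne μ 0 with h | h
    · rw [h, h0]; infer_instance
    · exact ContinuousLinearMap.finite_dimensional_eigenspace hGc μ h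
  set B : ∀ μ : ℝ, OrthonormalBasis (Fin (Module.finrank ℝ (Module.End.eigenspace (G : H →ₗ[ℝ] H) μ)))
    ℝ (Module.End.eigenspace (G : H →ₗ[ℝ] H) μ) := fun μ => stdOrthonormalBasis ℝ _ with hB
  set v : (Σ μ : ℝ, Fin (Module.finrank ℝ (Module.End.eigenspace (G : H →ₗ[ℝ] H) μ))) → H :=
    fun a => ((B a.1 a.2 : Module.End.eigenspace (G : H →ₗ[ℝ] H) a.1) : H) with hv
  have hvo : Orthonormal ℝ v := by
    have := (hsymm.orthogonalFamily_eigenspaces).orthonormal_sigma_orthonormal
      (v_family := fun μ => (B μ : _ → _)) (fun μ => (B μ).orthonormal)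
    exact this
  have hGv : ∀ a, G (v a) = a.1 • v a := fun a =>
    Module.End.mem_eigenspace_iff.1 (B a.1 a.2).2
  have hspan : (Submodule.span ℝ (Set.range v))ᗮ = ⊥ := by
    rw [← ContinuousLinearMap.orthogonalComplement_iSup_eigenspaces_eq_bot hGc hsymm]
    apply le_antisymm
    · apply Submodule.orthogonal_le
      refine iSup_le fun μ => ?_
      intro x hx
      have h1 := (B μ).sum_repr ⟨x, hx⟩
      have h2 : x = ∑ i, (B μ).repr ⟨x, hx⟩ i • v ⟨μ, i⟩ := by
        have h3 := congrArg (Submodule.subtype _) h1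
        rw [map_sum] at h3
        exact h3.symm
      rw [h2]
      refine Submodule.sum_mem _ fun i _ => Submodule.smul_mem _ _ (Submodule.subset_span ⟨_, rfl⟩)
    · apply Submodule.orthogonal_le
      rw [Submodule.span_le]
      rintro _ ⟨a, rfl⟩
      exact Submodule.mem_iSup_of_mem a.1 (B a.1 a.2).2
  set b := HilbertBasis.mkOfOrthogonalEqBot hvo hspan with hb
  have hbv : ∀ a, b a = v a := fun a => by
    rw [hb, HilbertBasis.coe_mkOfOrthogonalEqBot]
  have hGb : ∀ a, G (b a) = a.1 • b a := fun a => by rw [hbv]; exact hGv a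
  have hne : ∀ a : (Σ μ : ℝ, Fin (Module.finrank ℝ (Module.End.eigenspace (G : H →ₗ[ℝ] H) μ))), a.1 ≠ 0 := by
    intro a ha
    have h1 := hGb a
    rw [ha, zero_smul] at h1
    have h2 := hinj _ h1
    have h3 := b.orthonormal.1 a
    rw [h2, norm_zero] at h3
    exact zero_ne_one h3
  refine ⟨_, ?_, b, fun a => a.1, hne, hGb⟩
  rw [← Set.countable_univ_iff]
  have hU : (Set.univ : Set (Σ μ : ℝ, Fin (Module.finrank ℝ (Module.End.eigenspace (G : H →ₗ[ℝ] H) μ)))) ⊆
      ⋃ n : ℕ, {a | 1 / ((n : ℝ) + 1) ≤ |a.1|} := by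
    intro a _
    obtain ⟨n, hn⟩ := exists_nat_one_div_lt (abs_pos.2 (hne a))
    exact Set.mem_iUnion.2 ⟨n, hn.le⟩
  refine Set.Countable.mono hU (Set.countable_iUnion fun n => ?_)
  exact (finite_large hGc b.orthonormal hGb (by positivity)).countable

end diag

section kernel

variable {α β : ℝ} (hab : α < β)

/-- the kernel, extended to the plane -/
noncomputable def ext (K : ℝ → ℝ → ℝ) (x y : ℝ) : ℝ := K (projIcc α β hab.le x) (projIcc α β hab.le y)

theorem ext_eq (K : ℝ → ℝ → ℝ) {x y : ℝ} (hx : x ∈ Icc α β) (hy : y ∈ Icc α β) : ext hab K x y = K x y := by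
  rw [ext, projIcc_of_mem _ hx, projIcc_of_mem _ hy]

theorem ext_cont {K : ℝ → ℝ → ℝ} (hK : ContinuousOn (fun p : ℝ × ℝ => K p.1 p.2) (Icc α β ×ˢ Icc α β)) :
    Continuous fun p : ℝ × ℝ => ext hab K p.1 p.2 := by
  have h : Continuous fun p : ℝ × ℝ => (((projIcc α β hab.le p.1 : Icc α β) : ℝ), ((projIcc α β hab.le p.2 : Icc α β) : ℝ)) :=
    ((continuous_subtype_val.comp continuous_projIcc).comp continuous_fst).prodMk
      ((continuous_subtype_val.comp continuous_projIcc).comp continuous_snd)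
  exact hK.comp_continuous h fun p => ⟨(projIcc α β hab.le p.1).2, (projIcc α β hab.le p.2).2⟩

theorem ext_bdd {K : ℝ → ℝ → ℝ} (hK : ContinuousOn (fun p : ℝ × ℝ => K p.1 p.2) (Icc α β ×ˢ Icc α β)) :
    ∃ C : ℝ, ∀ x y, ‖ext hab K x y‖ ≤ C := by
  obtain ⟨C, hC⟩ := (isCompact_Icc.prod isCompact_Icc).exists_bound_of_continuousOn hK
  exact ⟨C, fun x y => hC (_, _) ⟨(projIcc α β hab.le x).2, (projIcc α β hab.le y).2⟩⟩

/-- the integral operator -/
noncomputable def op (K : ℝ → ℝ → ℝ) (g : ℝ → ℝ) (x : ℝ) : ℝ := ∫ y in Icc α β, ext hab K x y * g y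

theorem op_cont {K : ℝ → ℝ → ℝ} (hK : ContinuousOn (fun p : ℝ × ℝ => K p.1 p.2) (Icc α β ×ˢ Icc α β))
    {g : ℝ → ℝ} (hg : IntegrableOn g (Icc α β)) : Continuous (op hab K g) := by
  obtain ⟨C, hC⟩ := ext_bdd hab hK
  have hc := ext_cont hab hK
  refine continuous_of_dominated (bound := fun y => C * ‖g y‖) (fun x => ?_) (fun x => ?_) (hg.norm.const_mul C) ?_
  · exact ((hc.comp (Continuous.prodMk_right x)).aestronglyMeasurable).mul hg.aestronglyMeasurable
  · exact Eventually.of_forall fun y => by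
      rw [norm_mul]
      exact mul_le_mul_of_nonneg_right (hC x y) (norm_nonneg _)
  · exact Eventually.of_forall fun y => (hc.comp (Continuous.prodMk_left y)).mul continuous_const

theorem op_eq {K : ℝ → ℝ → ℝ} (g : ℝ → ℝ) {x : ℝ} (hx : x ∈ Icc α β) :
    op hab K g x = ∫ y in Icc α β, K x y * g y := by
  refine setIntegral_congr_fun measurableSet_Icc fun y hy => ?_
  rw [ext_eq hab K hx hy]

theorem op_congr {K : ℝ → ℝ → ℝ} {g h : ℝ → ℝ} (hgh : g =ᵐ[volume.restrict (Icc α β)] h) (x : ℝ) :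
    op hab K g x = op hab K h x := by
  refine integral_congr_ae ?_
  filter_upwards [hgh] with y hy
  rw [hy]

theorem op_symm {K : ℝ → ℝ → ℝ} (hK : ContinuousOn (fun p : ℝ × ℝ => K p.1 p.2) (Icc α β ×ˢ Icc α β))
    (hs : ∀ x ∈ Icc α β, ∀ y ∈ Icc α β, K x y = K y x) {f g : ℝ → ℝ} (hf : IntegrableOn f (Icc α β))
    (hg : IntegrableOn g (Icc α β)) :
    ∫ x in Icc α β, op hab K f x * g x = ∫ x in Icc α β, f x * op hab K g x := by
  obtain ⟨C, hC⟩ := ext_bdd hab hK
  have hc := ext_cont hab hK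
  have h1 : Integrable (Function.uncurry fun x y => ext hab K x y * (g x * f y))
      ((volume.restrict (Icc α β)).prod (volume.restrict (Icc α β))) := by
    refine Integrable.bdd_mul (c := C) (hg.mul_prod hf) hc.aestronglyMeasurable ?_
    exact Eventually.of_forall fun p => hC p.1 p.2
  have h2 : ∀ x, op hab K f x * g x = ∫ y in Icc α β, ext hab K x y * (g x * f y) := by
    intro x
    rw [op, ← integral_mul_const]
    exact integral_congr_ae (Eventually.of_forall fun y => by ring)
  have h3 : ∀ y, ∫ x in Icc α β, ext hab K x y * (g x * f y) = f y * ∫ x in Icc α β, ext hab K x y * g x := by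
    intro y
    rw [← integral_const_mul]
    exact integral_congr_ae (Eventually.of_forall fun x => by ring)
  rw [integral_congr_ae (Eventually.of_forall h2), integral_integral_swap h1,
    integral_congr_ae (Eventually.of_forall h3)]
  refine setIntegral_congr_fun measurableSet_Icc fun y hy => ?_
  congr 1
  rw [op_eq hab g hy]
  refine setIntegral_congr_fun measurableSet_Icc fun x hx => ?_
  rw [ext_eq hab K hx hy, hs x hx y hy]

end kernel

theorem t_HSB (hp1 : S_HSA) : S_HSB := by
  intro α β K hab hK hs hinj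
  obtain ⟨T, hTc, hT⟩ := hp1 α β K hab hK
  have hint : ∀ g : Lp ℝ 2 (volume.restrict (Icc α β)), IntegrableOn (g : ℝ → ℝ) (Icc α β) := fun g =>
    (Lp.memLp g).integrable (by norm_num)
  have hTop : ∀ g : Lp ℝ 2 (volume.restrict (Icc α β)), (T g : ℝ → ℝ) =ᵐ[volume.restrict (Icc α β)] op hab K g := by
    intro g
    refine (hT g).trans ?_
    filter_upwards [ae_restrict_mem measurableSet_Icc] with x hx
    exact (op_eq hab _ hx).symm
  have hinner : ∀ f g : Lp ℝ 2 (volume.restrict (Icc α β)), inner ℝ f g = ∫ x in Icc α β, f x * g x := by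
    intro f g
    rw [L2.inner_def]
    refine integral_congr_ae (Eventually.of_forall fun x => ?_)
    change inner ℝ (f x) (g x) = f x * g x
    rw [RCLike.inner_apply, conj_trivial, mul_comm]
  have hTs : ∀ f g, inner ℝ (T f) g = inner ℝ f (T g) := by
    intro f g
    rw [hinner, hinner]
    have h1 : ∫ x in Icc α β, T f x * g x = ∫ x in Icc α β, op hab K f x * g x := by
      refine integral_congr_ae ?_
      filter_upwards [hTop f] with x hx
      rw [hx]
    have h2 : ∫ x in Icc α β, f x * T g x = ∫ x in Icc α β, f x * op hab K g x := by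
      refine integral_congr_ae ?_
      filter_upwards [hTop g] with x hx
      rw [hx]
    rw [h1, h2]
    exact op_symm hab hK hs (hint f) (hint g)
  have hTi : ∀ g, T g = 0 → g = 0 := by
    intro g hg
    have h1 : op hab K g =ᵐ[volume.restrict (Icc α β)] fun _ => (0 : ℝ) := by
      refine (hTop g).symm.trans ?_
      rw [hg]
      exact Lp.coeFn_zero ℝ 2 _
    have h2 : EqOn (op hab K g) (fun _ => 0) (Icc α β) :=
      Measure.eqOn_Icc_of_ae_eq volume hab.ne h1 (op_cont hab hK (hint g)).continuousOn continuousOn_const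
    have h3 := hinj g (Lp.memLp g) fun x hx => by
      rw [← op_eq hab _ hx]
      exact h2 hx
    exact Lp.eq_zero_iff_ae_eq_zero.2 h3
  obtain ⟨ι, hι, b, μ, hμ, hb⟩ := diag hTc hTs hTi
  set ψ : ι → ℝ → ℝ := fun i x => (μ i)⁻¹ * op hab K (b i) x with hψ
  have hψb : ∀ i, ψ i =ᵐ[volume.restrict (Icc α β)] (b i : ℝ → ℝ) := by
    intro i
    have h1 := hTop (b i)
    rw [hb i] at h1
    filter_upwards [h1, Lp.coeFn_smul (μ i) (b i)] with x h2 h3
    rw [hψ]
    change (μ i)⁻¹ * op hab K (b i) x = _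
    rw [← h2, h3, Pi.smul_apply, smul_eq_mul, inv_mul_cancel_left₀ (hμ i)]
  refine ⟨ι, hι, ψ, μ, fun i => ?_, hμ, fun i x hx => ?_, fun i => ?_, fun i j hij => ?_, fun f hf => ?_⟩
  · exact ((op_cont hab hK (hint (b i))).const_mul _).continuousOn
  · rw [← op_eq hab _ hx, op_congr hab (hψb i), hψ]
    change _ = μ i * ((μ i)⁻¹ * op hab K (b i) x)
    rw [mul_inv_cancel_left₀ (hμ i)]
  · have h1 : ∫ x in Icc α β, ψ i x ^ 2 = ∫ x in Icc α β, b i x * b i x := by
      refine integral_congr_ae ?_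
      filter_upwards [hψb i] with x hx
      rw [hx, sq]
    rw [h1, ← hinner, real_inner_self_eq_norm_sq, b.orthonormal.1, one_pow]
  · have h1 : ∫ x in Icc α β, ψ i x * ψ j x = ∫ x in Icc α β, b i x * b j x := by
      refine integral_congr_ae ?_
      filter_upwards [hψb i, hψb j] with x hx hx'
      rw [hx, hx']
    rw [h1, ← hinner, b.orthonormal.2 hij]
  · set F : Lp ℝ 2 (volume.restrict (Icc α β)) := hf.toLp f with hF
    have hFf : (F : ℝ → ℝ) =ᵐ[volume.restrict (Icc α β)] f := hf.coeFn_toLp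
    have h1 := b.hasSum_inner_mul_inner F F
    have h2 : ∀ i, inner ℝ F (b i) = ∫ x in Icc α β, f x * ψ i x := by
      intro i
      rw [hinner]
      refine integral_congr_ae ?_
      filter_upwards [hFf, hψb i] with x hx hx'
      rw [hx, hx']
    have h3 : inner ℝ F F = ∫ x in Icc α β, f x ^ 2 := by
      rw [hinner]
      refine integral_congr_ae ?_
      filter_upwards [hFf] with x hx
      rw [hx, sq]
    rw [h3] at h1
    refine h1.congr_fun fun i => ?_
    rw [real_inner_comm F (b i), h2, sq]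

end Pool.Agent.Q181.CC
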